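import Pool.Agent.Y715.Z.Sel
import Pool.Agent.Y715.Z.Tpr
import Pool.Agent.Run7.h26.QI.Cr

/-!
# Project QJ: the 2-part of the strong conjecture for the twists `y² = x³ - g² x` over `ℚ(i)`,
# `g = c D`, `c = i, 1 + i, i (1 + i)` (all squarefree `g` with odd imaginary part)

The pieces. `q4 B : y² = x³ + B x` (Y715/Z/Tam), `NonsingRed` (Y696): nonsingular reduction.
-/

set_option autoImplicit false

open NumberField IsDedekindDomain

namespace Run7.h26.QJ

open WithZero
open scoped Classical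
open Pool.Agent.Y696 (NonsingRed)
open Pool.Agent.Y682 (vv S1 IsT)
open Pool.Agent.Y715.Z (q4 em0 ph)
open Pool.Agent.Y699 (PS PD pi1 pi1_prime plc)
open Run7.h26.QI (cc3 GoodC)
open H385 (ZI im1 nrm)

/-- QJ-IX4 (odd places dividing `g`, type I₀*, full 2-torsion): the index is four.
Proof: `P = (x, y)` is in `H` iff `1 ≤ v x` (or `P = 0`): `Y715.Z.ns_bad`. The points `(0, 0)`, `(g, 0)`, `(-g, 0)` are
not in `H`, and their differences are the same points, so the classes of `0, (0,0), (g,0), (-g,0)` are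
different. If `v x < 1`, put `x = g t`, `v t ≤ 1` (if `v x ≤ exp (-1)`; always true as `ℤᵐ⁰` is discrete); `y² = g³ t (t - 1) (t + 1)` has
odd `log v (g³)`, so one of `v t`, `v (t - 1)`, `v (t + 1)` is `< 1`, exactly one as `v 2 = 1`. The translates have the
abscissas `-g² / x`, `g (x + g) / (x - g)`, `-g (x - g) / (x + g)`: if `v (x - a) < v g` for `a ∈ {0, g, -g}`
then `P + (a, 0) ∈ H`. -/
def S_IX4 : Prop := ∀ (L : Type) [Field L] (v : Valuation L ℤᵐ⁰) (g : L),
  v 2 = 1 → v g = exp (-1 : ℤ) → ∀ H : AddSubgroup (q4 (-g ^ 2)).toAffine.Point,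
    (∀ P, P ∈ H ↔ NonsingRed v (q4 (-g ^ 2)) P) → H.index = 4

/-- QJ-IXE (the place `1 + i`, `g` even, type I₄*): the index is four.
Proof: `P = (x, y)` is in `H` iff `1 ≤ v x`. As above; if `v x < 1`: `v x ≤ exp (-2)` gives `P + (0,0) ∈ H` (abscissa
`-g² / x`). If `v x = v g = exp (-1)`: `v (x - g), v (x + g) ≤ exp (-2)` (two elements in the residue field). The
difference `2 g` has valuation `exp (-3)`. If `v (x - g) = v (x + g)`: the value `exp (-3)` is impossible (residue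
field), a smaller value is impossible, so it is `exp (-2)` and `y² = x (x - g) (x + g)` has valuation `exp (-5)`, odd:
impossible. If `v (x - g) < v (x + g)` then `P + (g, 0) ∈ H` (abscissa `g (x + g) / (x - g)`), else `P + (-g, 0) ∈ H`.
See also `Run7.h26.QI.cases4` (Dr.lean), the same with additive valuations. -/
def S_IXE : Prop := ∀ (L : Type) [Field L] (v : Valuation L ℤᵐ⁰) (g : L),
  v 2 = exp (-2 : ℤ) → v g = exp (-1 : ℤ) → (∀ t : L, v t = 1 → v (t - 1) < 1) →
    ∀ H : AddSubgroup (q4 (-g ^ 2)).toAffine.Point,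
      (∀ P, P ∈ H ↔ NonsingRed v (q4 (-g ^ 2)) P) → H.index = 4

/-- QJ-IXI (the place `1 + i`, `g = i D`, `D ≡ 1 mod (1+i)³`, type I₀*): the index is two.
Proof: here `v g = 1` and `P = (x, y)` is singular iff `v x = 1` (then `x, y ≡ (1, 0)`: `3 x² - g² ≡ 0`, `2 y ≡ 0`). So
`(0,0) ∈ H`, `T = (g, 0) ∉ H`, and `P + T` has abscissa `g (x + g) / (x - g)`. For `v x = 1`: `v (x - g), v (x + g) < 1`;
to show `v (x - g) ≠ v (x + g)` (then `P + T ∈ H`). `v (2 g) = exp (-2)`. If they are equal they are `exp (-1)` (the value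
`exp (-2)` is excluded by the residue field, smaller ones by the difference). With `π = 1 + j`, `x - g = π α`,
`v α = 1`: `y² = x (x-g) (x+g) = π² α² x (1 + 2 g / (π α))`, so `x (1 + 2 g / (π α))` is a square `s²`, `v s = 1`,
`s² ≡ 1 mod π²` (as `s = 1 + π t`). But `x = g + π α ≡ j + π ≡ 1 mod π²` and
`1 + 2 g / (π α) ≡ 1 + π mod π²` (`2 = -j π²`): contradiction. For `v x ≠ 1`: `P ∈ H`, `v (x - g) = v (x + g)`, so the abscissa of `P + T` has
valuation `1` and `P + T ∉ H`. -/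
def S_IXI : Prop := ∀ (L : Type) [Field L] (v : Valuation L ℤᵐ⁰) (j D : L),
  j ^ 2 = -1 → v 2 = exp (-2 : ℤ) → v (D - 1) ≤ exp (-3 : ℤ) → (∀ t : L, v t = 1 → v (t - 1) < 1) →
    ∀ H : AddSubgroup (q4 (-(j * D) ^ 2)).toAffine.Point,
      (∀ P, P ∈ H ↔ NonsingRed v (q4 (-(j * D) ^ 2)) P) → H.index = 2

/-- the Tamagawa numbers -/
noncomputable def cT {K : Type} [Field K] [NumberField K] (e : ZI ≃+* 𝓞 K) (c D : ZI)
    (v : HeightOneSpectrum (𝓞 K)) : ℕ :=
  if e pi1 ∈ v.asIdeal then (if c = im1 then 2 else 4) else if e D ∈ v.asIdeal then 4 else 1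

/-- QJ-TAM: the Tamagawa numbers at all places (from IX4, IXE, IXI; after `Y715.Z.tam`, which has every
step: `Pool.Agent.Y891.CTK.sub_of` gives the subgroup, `ns_good` the good places). -/
def S_TAM : Prop := ∀ (K : Type) [Field K] [NumberField K] (e : ZI ≃+* 𝓞 K) (c D : ZI), cc3 c → PS D →
  ∀ v : HeightOneSpectrum (𝓞 K),
    ∃ H : AddSubgroup (q4 (algebraMap K (v.adicCompletion K) (-(em0 e (c * D)) ^ 2))).toAffine.Point,
      (∀ P, P ∈ H ↔ NonsingRed (vv v) (q4 (algebraMap K (v.adicCompletion K) (-(em0 e (c * D)) ^ 2))) P) ∧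
      H.index = cT e c D v

/-- QJ-TPR: the product (after `Y715.Z.cT_prod`). -/
def S_TPR : Prop := ∀ (K : Type) [Field K] [NumberField K] (e : ZI ≃+* 𝓞 K) (c D : ZI), cc3 c → PS D →
  {v : HeightOneSpectrum (𝓞 K) | cT e c D v ≠ 1}.Finite ∧
    ∏ᶠ v : HeightOneSpectrum (𝓞 K), cT e c D v = 4 ^ (PD D).card * (if c = im1 then 2 else 4)

/-- QJ-PAR2 (the condition at `1 + i` for the torsors): if `m = d z²` is in the local image and `g = d d'` is `c D`, then `d` or
`d'` is `1` modulo `2`. The global version for points is `Run7.h26.QI.parity` (Ds.lean). Local proof: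
`v m` even. (a) `v m < v g` or `v m > v g` in value: the equation gives `m ≡` a square times `1 + π²(..)`, so `d ≡ 1`
resp. `d' ≡ 1 mod 2` ; (b) `v m = v g` (only for `g` odd). The approximation `Y715.Z.approx` turns the local
statement into the congruence one, if you prefer to use `parity`. -/
def S_PAR2 : Prop := ∀ (K : Type) [Field K] [NumberField K] (e : ZI ≃+* 𝓞 K) (c D d d' : ZI), cc3 c → PS D →
  c * D = d * d' → ∀ z m : (plc e pi1_prime).adicCompletion K, z ≠ 0 →
    algebraMap K ((plc e pi1_prime).adicCompletion K) (em0 e d) * z ^ 2 = m →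
    S1 0 (algebraMap K ((plc e pi1_prime).adicCompletion K) (-(em0 e (c * D)) ^ 2)) m →
      (2 : ZI) ∣ d - 1 ∨ (2 : ZI) ∣ d' - 1

/-- QJ-SEL: the Selmer group of `1 + i` (after `Y715.Z.sel`: `exists_sqf`, `not_dvd_of_loc`, `loc_bad`; then PAR2 and
`Run7.h26.QI.core` (Dr.lean), as in `square_class0`). -/
def S_SEL : Prop := ∀ (K : Type) [Field K] [NumberField K] (e : ZI ≃+* 𝓞 K) (c D : ZI), cc3 c → GoodC c D →
  ∀ b : K, b ≠ 0 →
    (∀ v : HeightOneSpectrum (𝓞 K), ∃ y m : v.adicCompletion K, y ≠ 0 ∧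
      algebraMap K (v.adicCompletion K) b * y ^ 2 = m ∧
        S1 0 (algebraMap K (v.adicCompletion K) (-(em0 e (c * D)) ^ 2)) m) →
    ∃ w : K, b = w ^ 2 ∨ b = em0 e (c * D) * w ^ 2

/-- QJ-SHA (from SEL; after `Y715.Z.sha_two`, `sha_pow`). -/
def S_SHA : Prop := ∀ (K : Type) [Field K] [NumberField K] (e : ZI ≃+* 𝓞 K) (c D : ZI), cc3 c → GoodC c D →
  ∀ W : WeierstrassCurve K, IsT W 0 (-(em0 e (c * D)) ^ 2) → ∀ (n : ℕ)
    (x : Pool.Agent.TH841.NF.D.Sha W), 2 ^ n • x = 0 → x = 0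

end Run7.h26.QJ
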